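import Mathlib
import Pool.Agent.Q122.Forest.Bool
import Pool.Agent.Q122.Forest.Leaf
import Pool.Agent.Q122.Forest.Alg

/-! # MP_cb4cd2_al: pure simplicial forests have the strong Lefschetz property

`A(Δ) = K[x_1, ..., x_n] / (N(Δ) + (x_1^2, ..., x_n^2))`, `Δ` a pure simplicial forest and `K` a
field of characteristic zero. -/

set_option autoImplicit false

namespace Pool.Agent.Results.MP_cb4cd2_al.ForestSLP

open Pool.Agent.Q122.Forest MvPolynomial

variable {n : ℕ}

/-- The component of degree `i` of the algebra `A(Δ)`, `Δ` the complex with the facets `C`. -/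
noncomputable def Piece (K : Type) [Field K] (C : Finset (Finset (Fin n))) (i : ℕ) :
    Submodule K (MvPolynomial (Fin n) K ⧸ sqIdeal K C) :=
  (homogeneousSubmodule (Fin n) K i).map (Ideal.Quotient.mkₐ K (sqIdeal K C)).toLinearMap

lemma mem_Piece {K : Type} [Field K] {C : Finset (Finset (Fin n))} {i : ℕ}
    {x : MvPolynomial (Fin n) K ⧸ sqIdeal K C} :
    x ∈ Piece K C i ↔ ∃ f, f.IsHomogeneous i ∧ Ideal.Quotient.mk (sqIdeal K C) f = x := Iff.rfl

lemma cf_eq_zero {K : Type} [Field K] {f : MvPolynomial (Fin n) K} {i : ℕ}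
    (hf : f.IsHomogeneous i) {S : Finset (Fin n)} (hS : S.card ≠ i) : cf f S = 0 := by
  by_contra h
  have := hf h
  have h2 : (Finsupp.weight (1 : Fin n → ℕ)) (ind S) = S.card := by
    rw [← ind_degree S, Finsupp.degree_eq_weight_one]
    rfl
  exact hS (h2.symm.trans this)

lemma lin_homogeneous {K : Type} [Field K] (a : Fin n → K) : (lin a).IsHomogeneous 1 := by
  refine IsHomogeneous.sum _ _ _ fun v _ => ?_
  have := (isHomogeneous_C (Fin n) (a v)).mul (isHomogeneous_X K v)
  rwa [zero_add] at this

/-- For a pure simplicial forest `Δ`, a field `K` of characteristic zero and a linear form `L` all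
of whose coefficients are not zero, every map `L ^ j : A(Δ)_i → A(Δ)_{i + j}` is injective or
surjective. -/
theorem result (K : Type) [Field K] [CharZero K] (n : ℕ) (C : Finset (Finset (Fin n)))
    (hC : IsForest C) (hpure : ∃ D : ℕ, ∀ F ∈ C, F.card = D) (a : Fin n → K) (ha : ∀ v, a v ≠ 0)
    (i j : ℕ) :
    (∀ x ∈ Piece K C i, Ideal.Quotient.mk (sqIdeal K C) (lin a) ^ j * x = 0 → x = 0) ∨
      (∀ y ∈ Piece K C (i + j), ∃ x ∈ Piece K C i,
        Ideal.Quotient.mk (sqIdeal K C) (lin a) ^ j * x = y) := by
  obtain ⟨D, hD⟩ := hpure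
  by_cases hiD : i + (i + j) ≤ D
  · left
    rintro _ ⟨f, hf, rfl⟩ h0
    change Ideal.Quotient.mk (sqIdeal K C) f = 0
    change Ideal.Quotient.mk (sqIdeal K C) (lin a) ^ j * Ideal.Quotient.mk (sqIdeal K C) f = 0 at h0
    have hf' : f.IsHomogeneous i := hf
    rw [← map_pow, ← map_mul, Ideal.Quotient.eq_zero_iff_mem, sqIdeal_eq] at h0
    rw [Ideal.Quotient.eq_zero_iff_mem, sqIdeal_eq]
    intro S hS
    change cf f S = 0
    by_cases hSi : S.card = i
    · obtain ⟨F, hF, hSF⟩ := hS
      have key := bool_inj (fun S => cf f S / wt a S) F i (i + j) (by omega)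
        (by rw [hD F hF]; exact hiD) ?_ S hSF hSi
      · exact (div_eq_zero_iff.1 key).resolve_right (wt_ne_zero ha S)
      · intro T hT hTc
        have h1 : cf (lin a ^ j * f) T = 0 := h0 T ⟨F, hF, hT⟩
        rw [cf_lin_pow_mul, iter_U a ha, if_pos (by omega), hTc] at h1
        have h2 : i + j - j = i := by omega
        rw [h2] at h1
        refine (mul_eq_zero.1 h1).resolve_left ?_
        exact mul_ne_zero (Nat.cast_ne_zero.2 (Nat.factorial_ne_zero _)) (wt_ne_zero ha T)
    · exact cf_eq_zero hf' hSi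
  · right
    rintro _ ⟨g, hg, rfl⟩
    have hg' : g.IsHomogeneous (i + j) := hg
    change ∃ x ∈ Piece K C i, Ideal.Quotient.mk (sqIdeal K C) (lin a) ^ j * x =
      Ideal.Quotient.mk (sqIdeal K C) g
    by_cases hj : j = 0
    · subst hj
      exact ⟨_, ⟨g, hg, rfl⟩, by rw [pow_zero, one_mul]; rfl⟩
    by_cases hkD : D < i + j
    · refine ⟨0, zero_mem _, ?_⟩
      rw [mul_zero]
      symm
      rw [Ideal.Quotient.eq_zero_iff_mem, sqIdeal_eq]
      rintro S ⟨F, hF, hSF⟩
      have := Finset.card_le_card hSF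
      rw [hD F hF] at this
      exact cf_eq_zero hg' (by omega)
    · obtain ⟨c, hc⟩ := forest_surj hC hD (i := i) (k := i + j) (by omega) (by omega) (by omega)
        (fun T => cf g T / ((j.factorial : K) * wt a T))
      set f : MvPolynomial (Fin n) K := ∑ S ∈ (Finset.univ : Finset (Fin n)).powersetCard i,
        monomial (ind S) (wt a S * c S) with hf
      have hfh : f.IsHomogeneous i := by
        refine IsHomogeneous.sum _ _ _ fun S hS => ?_
        refine isHomogeneous_monomial _ ?_
        rw [ind_degree]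
        exact (Finset.mem_powersetCard.1 hS).2
      have hcf : ∀ S, S.card = i → cf f S = wt a S * c S := by
        intro S hS
        rw [cf, hf, coeff_sum, Finset.sum_eq_single S]
        · rw [coeff_monomial, if_pos rfl]
        · intro T _ hT
          rw [coeff_monomial, if_neg]
          intro h
          exact hT (ind_injective h)
        · intro h
          exact absurd (Finset.mem_powersetCard.2 ⟨Finset.subset_univ _, hS⟩) h
      refine ⟨_, ⟨f, hfh, rfl⟩, ?_⟩
      change Ideal.Quotient.mk (sqIdeal K C) (lin a) ^ j * Ideal.Quotient.mk (sqIdeal K C) f = _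
      rw [← map_pow, ← map_mul, Ideal.Quotient.eq, sqIdeal_eq]
      intro T hT
      change cf (lin a ^ j * f - g) T = 0
      have h1 : cf (lin a ^ j * f - g) T = cf (lin a ^ j * f) T - cf g T := coeff_sub _ _ _ _
      rw [h1]
      by_cases hTc : T.card = i + j
      · rw [cf_lin_pow_mul, iter_U a ha, if_pos (by omega), hTc]
        have h2 : i + j - j = i := by omega
        have h3 : ∑ S ∈ T.powersetCard i, cf f S / wt a S = ∑ S ∈ T.powersetCard i, c S := by
          refine Finset.sum_congr rfl fun S hS => ?_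
          rw [hcf S (Finset.mem_powersetCard.1 hS).2, mul_div_cancel_left₀ _ (wt_ne_zero ha S)]
        rw [h2, h3, hc T hT hTc, mul_div_cancel₀, sub_self]
        exact mul_ne_zero (Nat.cast_ne_zero.2 (Nat.factorial_ne_zero _)) (wt_ne_zero ha T)
      · have h4 : (lin a ^ j * f).IsHomogeneous (j + i) := by
          have := ((lin_homogeneous a).pow j).mul hfh
          rwa [one_mul] at this
        rw [cf_eq_zero h4 (by omega), cf_eq_zero hg' hTc, sub_zero]

end Pool.Agent.Results.MP_cb4cd2_al.ForestSLP
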